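import Pool.Agent.Helper9.MCF.Defs

/-!
# Basic calculus of partial derivatives
-/

set_option autoImplicit false

open scoped ContDiff Topology
open Set Filter MeasureTheory

namespace Pool.Agent.Helper9.MCF

variable {n : ℕ}

/-! ### Smoothness -/

lemma infty_add_one : (∞ : WithTop ℕ∞) + 1 ≤ ∞ := by simp

lemma contDiffOn_pd {Ω : Set (E n)} (hΩ : IsOpen Ω) {f : E n → ℝ} (hf : ContDiffOn ℝ ∞ f Ω)
    (i : Fin n) : ContDiffOn ℝ ∞ (pd i f) Ω :=
  (hf.fderiv_of_isOpen hΩ (m := ∞) infty_add_one).clm_apply contDiffOn_const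

lemma contDiffOn_pdl {Ω : Set (E n)} (hΩ : IsOpen Ω) {f : E n → ℝ} (hf : ContDiffOn ℝ ∞ f Ω)
    (l : List (Fin n)) : ContDiffOn ℝ ∞ (pdl l f) Ω := by
  induction l with
  | nil => exact hf
  | cons i l ih => exact contDiffOn_pd hΩ ih i

lemma contDiff_pd {f : E n → ℝ} (hf : ContDiff ℝ ∞ f) (i : Fin n) : ContDiff ℝ ∞ (pd i f) := by
  rw [← contDiffOn_univ] at hf ⊢
  exact contDiffOn_pd isOpen_univ hf i

lemma contDiff_pdl {f : E n → ℝ} (hf : ContDiff ℝ ∞ f) (l : List (Fin n)) :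
    ContDiff ℝ ∞ (pdl l f) := by
  rw [← contDiffOn_univ] at hf ⊢
  exact contDiffOn_pdl isOpen_univ hf l

lemma one_add_gsq_pos (f : E n → ℝ) (x : E n) : 0 < 1 + gsq f x := by
  have : 0 ≤ gsq f x := Finset.sum_nonneg fun i _ => sq_nonneg _
  linarith

lemma gsq_nonneg (f : E n → ℝ) (x : E n) : 0 ≤ gsq f x :=
  Finset.sum_nonneg fun i _ => sq_nonneg _

lemma contDiffOn_gsq {Ω : Set (E n)} (hΩ : IsOpen Ω) {f : E n → ℝ} (hf : ContDiffOn ℝ ∞ f Ω) :
    ContDiffOn ℝ ∞ (gsq f) Ω := by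
  unfold gsq
  exact ContDiffOn.sum fun i _ => (contDiffOn_pd hΩ hf i).pow 2

lemma contDiffOn_gi {Ω : Set (E n)} (hΩ : IsOpen Ω) {f : E n → ℝ} (hf : ContDiffOn ℝ ∞ f Ω)
    (i j : Fin n) : ContDiffOn ℝ ∞ (fun x => gi f x i j) Ω := by
  unfold gi
  refine contDiffOn_const.sub (((contDiffOn_pd hΩ hf i).mul (contDiffOn_pd hΩ hf j)).div
    (contDiffOn_const.add (contDiffOn_gsq hΩ hf)) fun x _ => (one_add_gsq_pos f x).ne')

lemma contDiffOn_Lop {Ω : Set (E n)} (hΩ : IsOpen Ω) {f h : E n → ℝ} (hf : ContDiffOn ℝ ∞ f Ω)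
    (hh : ContDiffOn ℝ ∞ h Ω) : ContDiffOn ℝ ∞ (Lop f h) Ω := by
  unfold Lop
  exact ContDiffOn.sum fun i _ => ContDiffOn.sum fun j _ =>
    (contDiffOn_gi hΩ hf i j).mul (contDiffOn_pd hΩ (contDiffOn_pd hΩ hh j) i)

lemma contDiffOn_mc {Ω : Set (E n)} (hΩ : IsOpen Ω) {f : E n → ℝ} (hf : ContDiffOn ℝ ∞ f Ω) :
    ContDiffOn ℝ ∞ (mc f) Ω := contDiffOn_Lop hΩ hf hf

lemma contDiff_mc {f : E n → ℝ} (hf : ContDiff ℝ ∞ f) : ContDiff ℝ ∞ (mc f) := by
  rw [← contDiffOn_univ] at hf ⊢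
  exact contDiffOn_mc isOpen_univ hf

lemma ContDiffOn.differentiableAt_infty {Ω : Set (E n)} (hΩ : IsOpen Ω) {f : E n → ℝ}
    (hf : ContDiffOn ℝ ∞ f Ω) {x : E n} (hx : x ∈ Ω) : DifferentiableAt ℝ f x :=
  (hf.contDiffAt (hΩ.mem_nhds hx)).differentiableAt (by simp)

/-! ### Algebraic rules -/

lemma pd_congr {f g : E n → ℝ} {x : E n} (i : Fin n) (h : f =ᶠ[𝓝 x] g) : pd i f x = pd i g x := by
  unfold pd; rw [h.fderiv_eq]

lemma pd_eventuallyEq {f g : E n → ℝ} {x : E n} (i : Fin n) (h : f =ᶠ[𝓝 x] g) :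
    pd i f =ᶠ[𝓝 x] pd i g := by
  filter_upwards [h.fderiv (𝕜 := ℝ)] with y hy
  unfold pd; rw [hy]

lemma pdl_eventuallyEq {f g : E n → ℝ} {x : E n} (l : List (Fin n)) (h : f =ᶠ[𝓝 x] g) :
    pdl l f =ᶠ[𝓝 x] pdl l g := by
  induction l with
  | nil => exact h
  | cons i l ih => exact pd_eventuallyEq i ih

lemma pdl_congr {f g : E n → ℝ} {x : E n} (l : List (Fin n)) (h : f =ᶠ[𝓝 x] g) :
    pdl l f x = pdl l g x := (pdl_eventuallyEq l h).self_of_nhds

@[simp] lemma pdl_nil (f : E n → ℝ) : pdl [] f = f := rfl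

@[simp] lemma pdl_cons (i : Fin n) (l : List (Fin n)) (f : E n → ℝ) :
    pdl (i :: l) f = pd i (pdl l f) := rfl

lemma pdl_append (l l' : List (Fin n)) (f : E n → ℝ) : pdl (l ++ l') f = pdl l (pdl l' f) := by
  induction l with
  | nil => rfl
  | cons i l ih => simp [ih]

lemma pd_const (i : Fin n) (c : ℝ) : pd i (fun _ : E n => c) = fun _ => 0 := by
  funext x; simp [pd]

lemma pd_add {f g : E n → ℝ} {x : E n} (i : Fin n) (hf : DifferentiableAt ℝ f x)
    (hg : DifferentiableAt ℝ g x) : pd i (fun y => f y + g y) x = pd i f x + pd i g x := by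
  unfold pd; rw [fderiv_fun_add hf hg]; simp

lemma pd_sub {f g : E n → ℝ} {x : E n} (i : Fin n) (hf : DifferentiableAt ℝ f x)
    (hg : DifferentiableAt ℝ g x) : pd i (fun y => f y - g y) x = pd i f x - pd i g x := by
  unfold pd; rw [fderiv_fun_sub hf hg]; simp

lemma pd_mul {f g : E n → ℝ} {x : E n} (i : Fin n) (hf : DifferentiableAt ℝ f x)
    (hg : DifferentiableAt ℝ g x) :
    pd i (fun y => f y * g y) x = f x * pd i g x + pd i f x * g x := by
  unfold pd; rw [fderiv_fun_mul hf hg]; simp; ring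

lemma pd_sum {ι : Type} (s : Finset ι) {f : ι → E n → ℝ} {x : E n} (i : Fin n)
    (hf : ∀ a ∈ s, DifferentiableAt ℝ (f a) x) :
    pd i (fun y => ∑ a ∈ s, f a y) x = ∑ a ∈ s, pd i (f a) x := by
  unfold pd; rw [fderiv_fun_sum hf]; simp

lemma pd_comp {φ : ℝ → ℝ} {f : E n → ℝ} {x : E n} {φ' : ℝ} (i : Fin n)
    (hφ : HasDerivAt φ φ' (f x)) (hf : DifferentiableAt ℝ f x) :
    pd i (fun y => φ (f y)) x = φ' * pd i f x := by
  unfold pd
  have h := (hφ.comp_hasFDerivAt x hf.hasFDerivAt).fderiv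
  have e : (φ ∘ f) = fun y => φ (f y) := rfl
  rw [e] at h
  rw [h]; simp

lemma hasFDerivAt_eq_sum {f : E n → ℝ} {x : E n} (v : E n) :
    fderiv ℝ f x v = ∑ i, v i * pd i f x := by
  have hv : v = ∑ i : Fin n, v i • ei i := by
    ext j
    simp only [WithLp.ofLp_sum, WithLp.ofLp_smul, Finset.sum_apply, Pi.smul_apply, smul_eq_mul,
      PiLp.single_apply, mul_ite, mul_one, mul_zero, Finset.sum_ite_eq, Finset.mem_univ, if_true]
  conv_lhs => rw [hv]
  rw [map_sum]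
  refine Finset.sum_congr rfl fun i _ => ?_
  rw [map_smul, smul_eq_mul]; rfl

/-! ### Symmetry of second derivatives -/

lemma pd_comm {f : E n → ℝ} {x : E n} (hf : ContDiffAt ℝ 2 f x) (i j : Fin n) :
    pd i (pd j f) x = pd j (pd i f) x := by
  have h1 : ContDiffAt ℝ 1 (fderiv ℝ f) x := hf.fderiv_right (m := 1) (by norm_num)
  have h2 : DifferentiableAt ℝ (fderiv ℝ f) x := h1.differentiableAt (by norm_num)
  have h3 : ∀ k : Fin n, pd k f = fun y => (fderiv ℝ f y) (ei k) := fun k => rfl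
  have key : ∀ k m : Fin n, pd k (pd m f) x = fderiv ℝ (fderiv ℝ f) x (ei k) (ei m) := by
    intro k m
    rw [h3 m]
    unfold pd
    rw [fderiv_clm_apply h2 (differentiableAt_const _)]
    simp
  rw [key, key]
  exact (hf.isSymmSndFDerivAt (by simp)).eq _ _

lemma pd_comm_of_contDiffOn {Ω : Set (E n)} (hΩ : IsOpen Ω) {f : E n → ℝ}
    (hf : ContDiffOn ℝ ∞ f Ω) {x : E n} (hx : x ∈ Ω) (i j : Fin n) :
    pd i (pd j f) x = pd j (pd i f) x :=
  pd_comm ((hf.contDiffAt (hΩ.mem_nhds hx)).of_le (WithTop.coe_le_coe.2 le_top)) i j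

lemma pdl_perm {Ω : Set (E n)} (hΩ : IsOpen Ω) {f : E n → ℝ} (hf : ContDiffOn ℝ ∞ f Ω)
    {l l' : List (Fin n)} (h : l.Perm l') : ∀ x ∈ Ω, pdl l f x = pdl l' f x := by
  induction h with
  | nil => intro x _; rfl
  | cons i _ ih =>
    intro x hx
    exact pd_congr i (by filter_upwards [hΩ.mem_nhds hx] with y hy using ih y hy)
  | swap i j l =>
    intro x hx
    exact pd_comm_of_contDiffOn hΩ (contDiffOn_pdl hΩ hf l) hx j i
  | trans _ _ ih1 ih2 => intro x hx; rw [ih1 x hx, ih2 x hx]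

/-! ### Ellipticity of the coefficients -/

lemma gi_symm (f : E n → ℝ) (x : E n) (i j : Fin n) : gi f x i j = gi f x j i := by
  unfold gi
  by_cases h : i = j
  · subst h; rfl
  · simp [h, Ne.symm h]; ring

lemma gi_quad (f : E n → ℝ) (x : E n) (ξ : Fin n → ℝ) :
    ∑ i, ∑ j, gi f x i j * ξ i * ξ j
      = (∑ i, ξ i ^ 2) - (∑ i, pd i f x * ξ i) ^ 2 / (1 + gsq f x) := by
  have h1 : ∀ i, ∑ j, gi f x i j * ξ i * ξ j
      = ξ i ^ 2 - (pd i f x * ξ i) * (∑ j, pd j f x * ξ j) / (1 + gsq f x) := by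
    intro i
    have : ∀ j, gi f x i j * ξ i * ξ j
        = (if i = j then ξ i * ξ j else 0) - (pd i f x * ξ i) * (pd j f x * ξ j) / (1 + gsq f x) := by
      intro j
      unfold gi
      by_cases h : i = j
      · subst h; simp; ring
      · simp [h]; ring
    simp only [this, Finset.sum_sub_distrib, Finset.sum_ite_eq, Finset.mem_univ, if_true]
    rw [← Finset.sum_div, ← Finset.mul_sum]
    ring
  simp only [h1, Finset.sum_sub_distrib]
  rw [← Finset.sum_div, ← Finset.sum_mul]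
  ring

lemma gi_quad_le (f : E n → ℝ) (x : E n) (ξ : Fin n → ℝ) :
    ∑ i, ∑ j, gi f x i j * ξ i * ξ j ≤ ∑ i, ξ i ^ 2 := by
  rw [gi_quad]
  have : 0 ≤ (∑ i, pd i f x * ξ i) ^ 2 / (1 + gsq f x) :=
    div_nonneg (sq_nonneg _) (one_add_gsq_pos f x).le
  linarith

lemma gi_quad_ge (f : E n → ℝ) (x : E n) (ξ : Fin n → ℝ) :
    (∑ i, ξ i ^ 2) / (1 + gsq f x) ≤ ∑ i, ∑ j, gi f x i j * ξ i * ξ j := by
  rw [gi_quad, div_le_iff₀ (one_add_gsq_pos f x), sub_mul, div_mul_cancel₀ _ (one_add_gsq_pos f x).ne']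
  have h : (∑ i, pd i f x * ξ i) ^ 2 ≤ gsq f x * ∑ i, ξ i ^ 2 :=
    Finset.sum_mul_sq_le_sq_mul_sq _ _ _
  linarith

lemma gi_quad_nonneg (f : E n → ℝ) (x : E n) (ξ : Fin n → ℝ) :
    0 ≤ ∑ i, ∑ j, gi f x i j * ξ i * ξ j :=
  (div_nonneg (Finset.sum_nonneg fun i _ => sq_nonneg _) (one_add_gsq_pos f x).le).trans
    (gi_quad_ge f x ξ)

lemma abs_gi_le (f : E n → ℝ) (x : E n) (i j : Fin n) : |gi f x i j| ≤ 2 := by
  unfold gi
  have h1 : |pd i f x * pd j f x| ≤ 1 + gsq f x := by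
    have hi : (pd i f x) ^ 2 ≤ gsq f x :=
      Finset.single_le_sum (f := fun i => (pd i f x) ^ 2) (fun i _ => sq_nonneg _) (Finset.mem_univ i)
    have hj : (pd j f x) ^ 2 ≤ gsq f x :=
      Finset.single_le_sum (f := fun i => (pd i f x) ^ 2) (fun i _ => sq_nonneg _) (Finset.mem_univ j)
    rw [abs_le]
    constructor <;> nlinarith [sq_nonneg (pd i f x + pd j f x), sq_nonneg (pd i f x - pd j f x)]
  have h2 : |pd i f x * pd j f x / (1 + gsq f x)| ≤ 1 := by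
    rw [abs_div, abs_of_pos (one_add_gsq_pos f x)]
    exact div_le_one_of_le₀ h1 (one_add_gsq_pos f x).le
  have h3 : |(if i = j then (1 : ℝ) else 0)| ≤ 1 := by split_ifs <;> simp
  calc |(if i = j then (1 : ℝ) else 0) - pd i f x * pd j f x / (1 + gsq f x)|
      ≤ |(if i = j then (1 : ℝ) else 0)| + |pd i f x * pd j f x / (1 + gsq f x)| := abs_sub _ _
    _ ≤ 2 := by linarith

/-! ### Periodicity -/

lemma Per.pd {P : ℝ} {f : E n → ℝ} (hf : Per P f) (i : Fin n) : Per P (pd i f) := by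
  intro j x
  unfold MCF.pd
  have h : (fun y => f (y + P • ei j)) = f := by funext y; exact hf j y
  have h2 : fderiv ℝ (fun y => f (y + P • ei j)) x = fderiv ℝ f (x + P • ei j) := by
    rw [fderiv_comp_add_right]
  rw [← h2, h]

lemma Per.pdl {P : ℝ} {f : E n → ℝ} (hf : Per P f) (l : List (Fin n)) : Per P (pdl l f) := by
  induction l with
  | nil => exact hf
  | cons i l ih => exact Per.pd ih i

lemma Per.mc {P : ℝ} {f : E n → ℝ} (hf : Per P f) : Per P (mc f) := by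
  intro k x
  have h1 : ∀ i, MCF.pd i f (x + P • ei k) = MCF.pd i f x := fun i => (Per.pd hf i) k x
  have h2 : ∀ i j, MCF.pd i (MCF.pd j f) (x + P • ei k) = MCF.pd i (MCF.pd j f) x :=
    fun i j => (Per.pd (Per.pd hf j) i) k x
  unfold MCF.mc Lop gi gsq
  simp only [h1, h2]

lemma Per.add_int {P : ℝ} {f : E n → ℝ} (hf : Per P f) (i : Fin n) (m : ℤ) (x : E n) :
    f (x + ((m : ℝ) * P) • ei i) = f x := by
  induction m with
  | zero => simp
  | succ m ih =>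
    have : x + (((m : ℤ) + 1 : ℤ) * P : ℝ) • ei i = (x + (((m : ℤ) : ℝ) * P) • ei i) + P • ei i := by
      push_cast
      rw [add_assoc, ← add_smul]; congr 2; ring
    rw [this, hf i, ih]
  | pred m ih =>
    have h2 := hf i (x + (((-(m : ℤ) - 1 : ℤ) : ℝ) * P) • ei i)
    rw [← h2]
    have : x + (((-(m : ℤ) - 1 : ℤ) : ℝ) * P) • ei i + P • ei i = x + (((-(m : ℤ) : ℤ) : ℝ) * P) • ei i := by
      push_cast
      rw [add_assoc, ← add_smul]; congr 2; ring
    rw [this, ih]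

lemma Per.add_sum {P : ℝ} {f : E n → ℝ} (hf : Per P f) (k : Fin n → ℤ) (x : E n) :
    f (x + ∑ i, ((k i : ℝ) * P) • ei i) = f x := by
  have : ∀ s : Finset (Fin n), f (x + ∑ i ∈ s, ((k i : ℝ) * P) • ei i) = f x := by
    intro s
    induction s using Finset.induction_on with
    | empty => simp
    | insert a s ha ih =>
      rw [Finset.sum_insert ha, add_comm (((k a : ℝ) * P) • ei a), ← add_assoc, hf.add_int, ih]
  exact this _

/-- Every point can be moved into `[0,P)ⁿ` by a lattice translation. -/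
lemma exists_lattice {P : ℝ} (hP : 0 < P) (x : E n) :
    ∃ k : Fin n → ℤ, ∀ i, (x + ∑ j, ((k j : ℝ) * P) • ei j) i ∈ Ico 0 P := by
  refine ⟨fun i => -⌊x i / P⌋, fun i => ?_⟩
  have h1 : (x + ∑ j, (((-⌊x j / P⌋ : ℤ) : ℝ) * P) • ei j) i = x i - ⌊x i / P⌋ * P := by
    simp only [PiLp.add_apply, WithLp.ofLp_sum, WithLp.ofLp_smul, Finset.sum_apply, Pi.smul_apply,
      smul_eq_mul, PiLp.single_apply, mul_ite, mul_one, mul_zero, Finset.sum_ite_eq,
      Finset.mem_univ, if_true]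
    push_cast; ring
  rw [h1]
  have h2 := Int.floor_le (x i / P)
  have h3 := Int.lt_floor_add_one (x i / P)
  rw [le_div_iff₀ hP] at h2
  rw [div_lt_iff₀ hP] at h3
  constructor <;> linarith

/-! ### Time derivatives along solutions -/

lemma Sol.mono {Ω Ω' : Set (E n)} {T : ℝ} {u : ℝ → E n → ℝ} (h : Sol Ω T u) (hs : Ω' ⊆ Ω) :
    Sol Ω' T u where
  smooth t ht := (h.smooth t ht).mono hs
  cont l := (h.cont l).mono (prod_mono le_rfl hs)
  evol l x hx t ht := h.evol l x (hs hx) t ht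

lemma Sol.mono_time {Ω : Set (E n)} {T T' : ℝ} {u : ℝ → E n → ℝ} (h : Sol Ω T u) (hT : T' ≤ T) :
    Sol Ω T' u where
  smooth t ht := h.smooth t ⟨ht.1, ht.2.trans hT⟩
  cont l := (h.cont l).mono (prod_mono (Icc_subset_Icc_right hT) le_rfl)
  evol l x hx t ht := (h.evol l x hx t ⟨ht.1, ht.2.trans hT⟩).mono (Icc_subset_Icc_right hT)

end Pool.Agent.Helper9.MCF
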