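import Pool.Agent.Helper25.GrimReaperDefs

/-!
# Graphical mean curvature flow: common definitions for the existence theory

Definitions used by all the blocks of the existence proof (problem MP_114a94_gt).
Functions of time and space are written `u : ℝ → E n → ℝ` (time first).
-/

set_option autoImplicit false

open scoped ContDiff Topology
open Set Filter MeasureTheory

namespace Pool.Agent.Helper9.MCF

/-- Euclidean space of dimension `n`. -/
abbrev E (n : ℕ) : Type := Pool.Agent.Helper25.GrimReaper.E n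

/-- The `i`-th coordinate vector. -/
noncomputable abbrev ei {n : ℕ} (i : Fin n) : E n := EuclideanSpace.single i (1 : ℝ)

/-- The `i`-th partial derivative. -/
noncomputable def pd {n : ℕ} (i : Fin n) (f : E n → ℝ) : E n → ℝ := fun x => fderiv ℝ f x (ei i)

/-- Iterated partial derivatives: `pdl [i, j, k] f = ∂ᵢ ∂ⱼ ∂ₖ f`. -/
noncomputable def pdl {n : ℕ} : List (Fin n) → (E n → ℝ) → (E n → ℝ)
  | [], f => f
  | (i :: l), f => pd i (pdl l f)

/-- `|Df|²`. -/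
noncomputable def gsq {n : ℕ} (f : E n → ℝ) (x : E n) : ℝ := ∑ i, (pd i f x) ^ 2

/-- The coefficients `g^{ij} = δᵢⱼ - fᵢ fⱼ / (1 + |Df|²)`. -/
noncomputable def gi {n : ℕ} (f : E n → ℝ) (x : E n) (i j : Fin n) : ℝ :=
  (if i = j then 1 else 0) - pd i f x * pd j f x / (1 + gsq f x)

/-- The linear operator `L_f h = ∑ g^{ij}(Df) h_{ij}`. -/
noncomputable def Lop {n : ℕ} (f h : E n → ℝ) (x : E n) : ℝ :=
  ∑ i, ∑ j, gi f x i j * pd i (pd j h) x

/-- The mean curvature flow operator `∑ g^{ij}(Df) f_{ij}`. -/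
noncomputable def mc {n : ℕ} (f : E n → ℝ) : E n → ℝ := fun x => Lop f f x

/-- `u` is a classical solution of graphical mean curvature flow on `Ω × [0,T]`, smooth in space
up to time `0`: all space derivatives are jointly continuous on `[0,T] × Ω` and have the time
derivative which the equation dictates. -/
structure Sol {n : ℕ} (Ω : Set (E n)) (T : ℝ) (u : ℝ → E n → ℝ) : Prop where
  smooth : ∀ t ∈ Icc 0 T, ContDiffOn ℝ ∞ (u t) Ω
  cont : ∀ l : List (Fin n), ContinuousOn (fun p : ℝ × E n => pdl l (u p.1) p.2) (Icc 0 T ×ˢ Ω)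
  evol : ∀ l : List (Fin n), ∀ x ∈ Ω, ∀ t ∈ Icc 0 T,
    HasDerivWithinAt (fun s => pdl l (u s) x) (pdl l (mc (u t)) x) (Icc 0 T) t

/-- `f` is periodic with period `P` in every coordinate. -/
def Per {n : ℕ} (P : ℝ) (f : E n → ℝ) : Prop := ∀ (i : Fin n) (x : E n), f (x + P • ei i) = f x

/-- The unit cube `[0,1]ⁿ`. -/
def cube (n : ℕ) : Set (E n) := {x | ∀ i, x i ∈ Icc (0 : ℝ) 1}

/-- The `L²` inner product over the unit cube. -/
noncomputable def ip {n : ℕ} (f g : E n → ℝ) : ℝ := ∫ x in cube n, f x * g x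

/-- Squared norm of the second fundamental form of the graph of `f`:
`|A|² = ρ (|B|² - 2 ρ |B p|² + ρ² (p · B p)²)`, where `p = Df`, `B = D²f`, `ρ = 1/(1+|p|²)`. -/
noncomputable def Asq {n : ℕ} (f : E n → ℝ) (x : E n) : ℝ :=
  (1 + gsq f x)⁻¹ * ((∑ i, ∑ j, (pd i (pd j f) x) ^ 2)
    - 2 * (1 + gsq f x)⁻¹ * (∑ i, (∑ j, pd i (pd j f) x * pd j f x) ^ 2)
    + (1 + gsq f x)⁻¹ ^ 2 * (∑ i, ∑ j, pd i f x * pd i (pd j f) x * pd j f x) ^ 2)

/-- Squared norm of the `m`-th derivative, `∑_{|l| = m} (∂_l f)²`. -/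
noncomputable def W {n : ℕ} (m : ℕ) (f : E n → ℝ) (x : E n) : ℝ :=
  ∑ l : Fin m → Fin n, (pdl (List.ofFn l) f x) ^ 2

/-- Squared `H^m` norm over the unit cube. -/
noncomputable def NN {n : ℕ} (m : ℕ) (f : E n → ℝ) : ℝ :=
  ∑ j ∈ Finset.range (m + 1), ∫ x in cube n, W j f x

/-- Half of the time derivative of the squared `H^m` norm along the flow. -/
noncomputable def DD {n : ℕ} (m : ℕ) (f : E n → ℝ) : ℝ :=
  ∑ j ∈ Finset.range (m + 1), ∑ l : Fin j → Fin n,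
    ip (pdl (List.ofFn l) f) (pdl (List.ofFn l) (mc f))

/-- Differential polynomials without linear part, homogeneous of weight `w`: finite sums of
products `Φ(Df) ∏ ∂_l f` with at least two factors, each of order at least two, and
`∑ (order - 1) = w`. -/
inductive DP {n : ℕ} : ℕ → ((E n → ℝ) → E n → ℝ) → Prop
  | mono (w : ℕ) (Φ : (Fin n → ℝ) → ℝ) (hΦ : ContDiff ℝ ∞ Φ) (L : List (List (Fin n)))
      (h2 : ∀ l ∈ L, 2 ≤ l.length) (hw : (L.map fun l => l.length - 1).sum = w)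
      (hr : 2 ≤ L.length) :
      DP w (fun f x => Φ (fun i => pd i f x) * (L.map fun l => pdl l f x).prod)
  | zero (w : ℕ) : DP w (fun _ _ => 0)
  | add (w : ℕ) (F G : (E n → ℝ) → E n → ℝ) (hF : DP w F) (hG : DP w G) :
      DP w (fun f x => F f x + G f x)

/-- An increasing family of finite-dimensional spaces of smooth periodic functions (trigonometric
polynomials), invariant under differentiation, with uniformly dense union. -/
structure TrigSpaces {n : ℕ} (V : ℕ → Submodule ℝ (E n → ℝ)) : Prop where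
  mono : Monotone V
  fin : ∀ N, FiniteDimensional ℝ (V N)
  smooth : ∀ N, ∀ f ∈ V N, ContDiff ℝ ∞ f
  per : ∀ N, ∀ f ∈ V N, Per 1 f
  pd_mem : ∀ N, ∀ f ∈ V N, ∀ i, pd i f ∈ V N
  dense : ∀ f : E n → ℝ, Continuous f → Per 1 f → ∀ ε : ℝ, 0 < ε →
    ∃ N, ∃ φ ∈ V N, ∀ x, |f x - φ x| ≤ ε

open Pool.Agent.Helper25.GrimReaper (slab v₀) in
/-- Smooth periodic approximations `w k` (period `P k`) of a perturbation `u₀` of the grim reaper:
near the slab `w k` looks like `min k u₀`, and it is a plateau of height about `k` away from the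
slab (and its translates). -/
structure InitApprox {n : ℕ} [NeZero n] (u₀ : E n → ℝ) (P : ℕ → ℝ) (w : ℕ → E n → ℝ) : Prop where
  P_large : ∀ k, 2 * Real.pi ≤ P k
  P_tendsto : Tendsto P atTop atTop
  smooth : ∀ k, ContDiff ℝ ∞ (w k)
  per : ∀ k, Per (P k) (w k)
  bound : ∃ M : ℝ, ∀ k : ℕ, (∀ x, -M ≤ w k x) ∧
    (∀ x ∈ slab n, min (k : ℝ) (v₀ x) - M ≤ w k x ∧ w k x ≤ v₀ x + M) ∧
    (∀ x : E n, Real.pi / 2 ≤ |x 0| → |x 0| ≤ P k - Real.pi / 2 → (k : ℝ) - M ≤ w k x)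
  decay : ∀ ε : ℝ, 0 < ε → ∃ K : Set (E n), IsCompact K ∧ K ⊆ slab n ∧ ∃ k₀ : ℕ, ∀ k ≥ k₀,
    ∀ x ∈ slab n, (∃ z : Fin n → ℤ, z 0 = 0 ∧ x + ∑ j, ((z j : ℝ) * P k) • ei j ∈ K) ∨
      (min (k : ℝ) (v₀ x) - ε ≤ w k x ∧ w k x ≤ v₀ x + ε)
  conv : ∀ K : Set (E n), IsCompact K → K ⊆ slab n → ∀ ε : ℝ, 0 < ε →
    ∃ k₀ : ℕ, ∀ k ≥ k₀, ∀ x ∈ K, |w k x - u₀ x| ≤ ε
  grad : ∀ K : Set (E n), IsCompact K → K ⊆ slab n →
    ∃ (Λ : ℝ) (k₀ : ℕ), ∀ k ≥ k₀, ∀ x ∈ K, gsq (w k) x ≤ Λ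

end Pool.Agent.Helper9.MCF
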